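import Mathlib
import Pool.Agent.H377R3.SIM.Data

set_option autoImplicit false

namespace Pool.Agent.H377R3.SIM

/-- first end of edge number `i` -/
def e1 (i : Fin 15) : Fin 6 := ![0,0,0,0,0,1,1,1,1,2,2,2,3,3,4] i
/-- second end of edge number `i` -/
def e2 (i : Fin 15) : Fin 6 := ![1,2,3,4,5,2,3,4,5,3,4,5,4,5,5] i

/-- number of the edge `xy` -/
def eix (x y : Fin 6) : Fin 15 :=
  Fin.ofNat 15 (5 * min x.val y.val - min x.val y.val * (min x.val y.val - 1) / 2
    + max x.val y.val - min x.val y.val - 1)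

def edge (i : Fin 15) : Sym2 (Fin 6) := s(e1 i, e2 i)

lemma e_ne : ∀ i : Fin 15, e1 i ≠ e2 i := by decide

lemma edge_inj : Function.Injective edge := by
  have : ∀ i j : Fin 15, edge i = edge j → i = j := by decide +kernel
  exact this

lemma edge_eix : ∀ x y : Fin 6, x ≠ y → edge (eix x y) = s(x, y) := by decide +kernel

lemma edge_surj (e : Sym2 (Fin 6)) (he : ¬ e.IsDiag) : ∃ i, edge i = e := by
  induction e using Sym2.ind with
  | _ x y =>
    rw [Sym2.mk_isDiag_iff] at he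
    exact ⟨eix x y, edge_eix x y he⟩

lemma edge_not_diag (i : Fin 15) : ¬ (edge i).IsDiag := by
  unfold edge
  rw [Sym2.mk_isDiag_iff]
  exact e_ne i

/-- action on edge numbers -/
def pim (f : Fin 6 → Fin 6) (i : Fin 15) : Fin 15 := eix (f (e1 i)) (f (e2 i))

lemma edge_pim (σ : Equiv.Perm (Fin 6)) (i : Fin 15) :
    edge (pim σ i) = Sym2.map σ (edge i) := by
  unfold pim
  rw [edge_eix _ _ (fun h => e_ne i (σ.injective h))]
  rfl

/-- the edge set with a given mask -/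
def toSet (m : ℕ) : Finset (Sym2 (Fin 6)) :=
  (Finset.univ.filter (fun i : Fin 15 => m.testBit i.val = true)).map ⟨edge, edge_inj⟩

lemma edge_mem {m : ℕ} {i : Fin 15} : edge i ∈ toSet m ↔ m.testBit i.val = true := by
  unfold toSet
  simp only [Finset.mem_map, Finset.mem_filter, Finset.mem_univ, true_and,
    Function.Embedding.coeFn_mk]
  constructor
  · rintro ⟨j, hj, hji⟩
    rw [← edge_inj hji]; exact hj
  · intro h
    exact ⟨i, h, rfl⟩

lemma mem_toSet {m : ℕ} {e : Sym2 (Fin 6)} :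
    e ∈ toSet m ↔ ∃ i : Fin 15, m.testBit i.val = true ∧ edge i = e := by
  unfold toSet
  simp

lemma toSet_card (m : ℕ) :
    (toSet m).card = (Finset.univ.filter (fun i : Fin 15 => m.testBit i.val = true)).card := by
  unfold toSet
  rw [Finset.card_map]

lemma toSet_insert (m : ℕ) (i : Fin 15) :
    insert (edge i) (toSet m) = toSet (m ||| 2 ^ i.val) := by
  ext e
  rw [Finset.mem_insert, mem_toSet, mem_toSet]
  constructor
  · rintro (h | ⟨j, hj, hje⟩)
    · exact ⟨i, by simp [Nat.testBit_or, Nat.testBit_two_pow_self], h.symm⟩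
    · exact ⟨j, by simp [Nat.testBit_or, hj], hje⟩
  · rintro ⟨j, hj, hje⟩
    rw [Nat.testBit_or, Bool.or_eq_true] at hj
    rcases hj with hj | hj
    · exact Or.inr ⟨j, hj, hje⟩
    · left
      rw [Nat.testBit_two_pow] at hj
      have : i = j := Fin.ext (by simpa using hj)
      rw [this]; exact hje.symm

def act (σ : Equiv.Perm (Fin 6)) (S : Finset (Sym2 (Fin 6))) : Finset (Sym2 (Fin 6)) :=
  S.image (Sym2.map ⇑σ)

lemma map_inj (σ : Equiv.Perm (Fin 6)) : Function.Injective (Sym2.map ⇑σ) :=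
  Sym2.map.injective σ.injective

lemma act_mul (σ τ : Equiv.Perm (Fin 6)) (S : Finset (Sym2 (Fin 6))) :
    act (σ * τ) S = act σ (act τ S) := by
  unfold act
  rw [Finset.image_image]
  congr 1
  funext e
  rw [Function.comp_apply, Sym2.map_map]
  rfl

lemma act_one (S : Finset (Sym2 (Fin 6))) : act 1 S = S := by
  unfold act
  have : Sym2.map ⇑(1 : Equiv.Perm (Fin 6)) = id := by
    rw [Equiv.Perm.coe_one, Sym2.map_id]
  rw [this, Finset.image_id]

lemma act_inv_act (σ : Equiv.Perm (Fin 6)) (S : Finset (Sym2 (Fin 6))) :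
    act σ⁻¹ (act σ S) = S := by
  rw [← act_mul, inv_mul_cancel, act_one]

lemma act_act_inv (σ : Equiv.Perm (Fin 6)) (S : Finset (Sym2 (Fin 6))) :
    act σ (act σ⁻¹ S) = S := by
  rw [← act_mul, mul_inv_cancel, act_one]

lemma act_mono (σ : Equiv.Perm (Fin 6)) {S T : Finset (Sym2 (Fin 6))} (h : S ⊆ T) :
    act σ S ⊆ act σ T := Finset.image_subset_image h

lemma act_insert (σ : Equiv.Perm (Fin 6)) (e : Sym2 (Fin 6)) (S : Finset (Sym2 (Fin 6))) :
    act σ (insert e S) = insert (Sym2.map σ e) (act σ S) := Finset.image_insert _ _ _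

lemma act_card (σ : Equiv.Perm (Fin 6)) (S : Finset (Sym2 (Fin 6))) :
    (act σ S).card = S.card := Finset.card_image_of_injective _ (map_inj σ)

lemma mem_act (σ : Equiv.Perm (Fin 6)) (e : Sym2 (Fin 6)) (S : Finset (Sym2 (Fin 6))) :
    Sym2.map σ e ∈ act σ S ↔ e ∈ S := by
  unfold act
  exact (map_inj σ).mem_finset_image

lemma map_diag (σ : Equiv.Perm (Fin 6)) (e : Sym2 (Fin 6)) :
    (Sym2.map σ e).IsDiag ↔ e.IsDiag := by
  induction e using Sym2.ind with
  | _ x y => simp [Sym2.map_mk]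

/-! ### permutation codes -/

def pf (c : ℕ) (i : Fin 6) : Fin 6 := Fin.ofNat 6 (c / 6 ^ i.val)

def isPerm (c : ℕ) : Bool := decide (∀ i j : Fin 6, pf c i = pf c j → i = j)

lemma exists_perm {c : ℕ} (h : isPerm c = true) : ∃ σ : Equiv.Perm (Fin 6), ⇑σ = pf c := by
  have h' : Function.Injective (pf c) := fun i j hij => (of_decide_eq_true h) i j hij
  exact ⟨Equiv.ofBijective _ (Finite.injective_iff_bijective.mp h'), rfl⟩

/-- `a' = c · a` -/
def checkEq (c a a' : ℕ) : Bool :=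
  decide (∀ i : Fin 15, a'.testBit (pim (pf c) i).val = a.testBit i.val)

lemma checkEq_sound {c a a' : ℕ} (h : checkEq c a a' = true) (σ : Equiv.Perm (Fin 6))
    (hσ : ⇑σ = pf c) : toSet a' = act σ (toSet a) := by
  have h' := of_decide_eq_true h
  ext e
  constructor
  · intro he
    obtain ⟨j, hj, hje⟩ := mem_toSet.mp he
    -- preimage
    have hd : ¬ (Sym2.map (σ⁻¹ : Equiv.Perm (Fin 6)) e).IsDiag := by
      rw [map_diag, ← hje]; exact edge_not_diag j
    obtain ⟨i, hi⟩ := edge_surj _ hd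
    have he2 : Sym2.map σ (edge i) = e := by
      rw [hi, Sym2.map_map]
      have : (⇑σ ∘ ⇑(σ⁻¹ : Equiv.Perm (Fin 6))) = id := by
        funext x; simp
      rw [this, Sym2.map_id, id]
    have hpi : pim σ i = j := edge_inj (by rw [edge_pim, he2, hje])
    have h1 := h' i
    rw [← hσ, hpi, hj] at h1
    rw [← he2, mem_act]
    exact edge_mem.mpr h1.symm
  · intro he
    obtain ⟨e', he', hee⟩ := Finset.mem_image.mp he
    obtain ⟨i, hi, hie⟩ := mem_toSet.mp he'
    rw [← hee, ← hie, ← edge_pim, edge_mem, hσ, h' i]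
    exact hi

/-- `c · l ⊆ d` -/
def checkSub (c l d : ℕ) : Bool :=
  decide (∀ i : Fin 15, l.testBit i.val = true → d.testBit (pim (pf c) i).val = true)

lemma checkSub_sound {c l d : ℕ} (h : checkSub c l d = true) (σ : Equiv.Perm (Fin 6))
    (hσ : ⇑σ = pf c) : act σ (toSet l) ⊆ toSet d := by
  have h' := of_decide_eq_true h
  intro e he
  obtain ⟨e', he', hee⟩ := Finset.mem_image.mp he
  obtain ⟨i, hi, hie⟩ := mem_toSet.mp he'
  rw [← hee, ← hie, ← edge_pim, edge_mem, hσ]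
  exact h' i hi

/-! ### lines -/

def L : Set (Finset (Sym2 (Fin 6))) :=
  {ℓ | ∃ σ : Equiv.Perm (Fin 6), ℓ = act σ (toSet triMask) ∨ ℓ = act σ (toSet clawMask)}

def noLine (c : ℕ) : Bool := lines80.all (fun l => decide (l &&& c ≠ l))

lemma tri_lines : ∀ x y z : Fin 6, x ≠ y → x ≠ z → y ≠ z →
    (2 ^ (eix x y).val ||| 2 ^ (eix x z).val ||| 2 ^ (eix y z).val) ∈ lines80 := by
  decide +kernel

lemma claw_lines : ∀ x a : Fin 6, x ≠ a → ∀ b, x ≠ b → a ≠ b → ∀ c, x ≠ c → a ≠ c → b ≠ c →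
    ∀ y, x ≠ y → a ≠ y → b ≠ y → c ≠ y → ∀ z, x ≠ z → a ≠ z → b ≠ z → c ≠ z → y ≠ z →
    (2 ^ (eix x a).val ||| 2 ^ (eix x b).val ||| 2 ^ (eix x c).val ||| 2 ^ (eix y z).val)
      ∈ lines80 := by
  decide +kernel

lemma toSet_tri : toSet triMask = {s(0, 1), s(0, 2), s(1, 2)} := by decide +kernel
lemma toSet_claw : toSet clawMask = {s(0, 3), s(0, 4), s(0, 5), s(1, 2)} := by decide +kernel

lemma and_pow {c i : ℕ} (h : c.testBit i = true) : 2 ^ i &&& c = 2 ^ i := by
  apply Nat.eq_of_testBit_eq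
  intro j
  rw [Nat.testBit_and, Nat.testBit_two_pow]
  by_cases hij : i = j
  · subst hij; simp [h]
  · simp [hij]

lemma mem_mk {c : ℕ} {x y : Fin 6} (hxy : x ≠ y) (h : s(x, y) ∈ toSet c) :
    c.testBit (eix x y).val = true := by
  rw [← edge_eix x y hxy, edge_mem] at h
  exact h

lemma noLine_sound {c : ℕ} (h : noLine c = true) : ∀ ℓ ∈ L, ¬ ℓ ⊆ toSet c := by
  have h' : ∀ l ∈ lines80, l &&& c ≠ l := by
    intro l hl
    exact of_decide_eq_true (List.all_eq_true.mp h l hl)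
  have hne : ∀ (σ : Equiv.Perm (Fin 6)) (i j : Fin 6), i ≠ j → σ i ≠ σ j :=
    fun σ i j hij hh => hij (σ.injective hh)
  rintro ℓ ⟨σ, hℓ | hℓ⟩ hsub
  · rw [hℓ, toSet_tri] at hsub
    have m1 : s(σ 0, σ 1) ∈ toSet c := hsub (by simp [act])
    have m2 : s(σ 0, σ 2) ∈ toSet c := hsub (by simp [act])
    have m3 : s(σ 1, σ 2) ∈ toSet c := hsub (by simp [act])
    have n1 := hne σ 0 1 (by decide)
    have n2 := hne σ 0 2 (by decide)
    have n3 := hne σ 1 2 (by decide)
    apply h' _ (tri_lines (σ 0) (σ 1) (σ 2) n1 n2 n3)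
    rw [Nat.and_or_distrib_right, Nat.and_or_distrib_right, and_pow (mem_mk n1 m1),
      and_pow (mem_mk n2 m2), and_pow (mem_mk n3 m3)]
  · rw [hℓ, toSet_claw] at hsub
    have m1 : s(σ 0, σ 3) ∈ toSet c := hsub (by simp [act])
    have m2 : s(σ 0, σ 4) ∈ toSet c := hsub (by simp [act])
    have m3 : s(σ 0, σ 5) ∈ toSet c := hsub (by simp [act])
    have m4 : s(σ 1, σ 2) ∈ toSet c := hsub (by simp [act])
    have n1 := hne σ 0 3 (by decide)
    have n2 := hne σ 0 4 (by decide)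
    have n3 := hne σ 0 5 (by decide)
    have n4 := hne σ 1 2 (by decide)
    apply h' _ (claw_lines (σ 0) (σ 3) n1 (σ 4) n2 (hne σ _ _ (by decide)) (σ 5) n3
      (hne σ _ _ (by decide)) (hne σ _ _ (by decide)) (σ 1) (hne σ _ _ (by decide))
      (hne σ _ _ (by decide)) (hne σ _ _ (by decide)) (hne σ _ _ (by decide)) (σ 2)
      (hne σ _ _ (by decide)) (hne σ _ _ (by decide)) (hne σ _ _ (by decide))
      (hne σ _ _ (by decide)) n4)
    rw [Nat.and_or_distrib_right, Nat.and_or_distrib_right, Nat.and_or_distrib_right,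
      and_pow (mem_mk n1 m1), and_pow (mem_mk n2 m2), and_pow (mem_mk n3 m3),
      and_pow (mem_mk n4 m4)]

lemma act_L (τ : Equiv.Perm (Fin 6)) {ℓ : Finset (Sym2 (Fin 6))} (h : ℓ ∈ L) : act τ ℓ ∈ L := by
  obtain ⟨σ, hℓ | hℓ⟩ := h
  · exact ⟨τ * σ, Or.inl (by rw [hℓ, act_mul])⟩
  · exact ⟨τ * σ, Or.inr (by rw [hℓ, act_mul])⟩

/-! ### the check -/

def popc (m : ℕ) : ℕ := (Finset.univ.filter (fun i : Fin 15 => m.testBit i.val = true)).card

def pOK (q : ℕ × ℕ × ℕ × ℕ × ℕ) : Bool :=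
  let a := q.1; let b := q.2.1; let e := q.2.2.1; let k := q.2.2.2.1; let c := q.2.2.2.2
  decide (e < 15) && !(a.testBit e) && !(b.testBit e) && decide (popc a = popc b) &&
    noLine (a ||| 2 ^ e) && isPerm c &&
    (match Ql[k]? with
      | some r => checkEq c r.1 (a ||| 2 ^ e) && checkEq c r.2.1 b
      | none => false)

def mOK (a b i : ℕ) (tc : ℕ × ℕ) : Bool :=
  isPerm tc.2 &&
  (if tc.1 = 1 then checkSub tc.2 triMask (b ||| 2 ^ i)
    else if tc.1 = 2 then checkSub tc.2 clawMask (b ||| 2 ^ i)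
    else match Pl[tc.1 - 3]? with
      | some r => checkEq tc.2 r.1 a && checkEq tc.2 r.2.1 (b ||| 2 ^ i)
      | none => false)

def qOK (q : ℕ × ℕ × List (ℕ × ℕ)) : Bool :=
  let a := q.1; let b := q.2.1
  decide (popc a = popc b + 1) &&
  decide (∃ i : Fin 15, a.testBit i.val = false ∧ b.testBit i.val = false) &&
  decide (∀ i : Fin 15, a.testBit i.val = false → b.testBit i.val = false →
    ∃ tc ∈ q.2.2[i.val]?, mOK a b i.val tc = true)

end Pool.Agent.H377R3.SIM
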