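import Mathlib
import Pool.Agent.H377R3.SIM.Check

set_option autoImplicit false

namespace Pool.Agent.H377R3.SIM

lemma Pl_ok : Pl.all pOK = true := by decide +kernel

lemma Ql_ok : Ql.all qOK = true := by decide +kernel

/-- the winning set of positions for the first player -/
def W : Set (Finset (Sym2 (Fin 6)) × Finset (Sym2 (Fin 6))) :=
  {p | ∃ σ : Equiv.Perm (Fin 6),
    (∃ q ∈ Pl, p = (act σ (toSet q.1), act σ (toSet q.2.1))) ∨
    (∃ q ∈ Ql, p = (act σ (toSet q.1), act σ (toSet q.2.1)))}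

lemma P_step (q : ℕ × ℕ × ℕ × ℕ × ℕ) (hq : q ∈ Pl) (σ : Equiv.Perm (Fin 6)) :
    (act σ (toSet q.1)).card = (act σ (toSet q.2.1)).card ∧
    ∃ e : Sym2 (Fin 6), ¬ e.IsDiag ∧ e ∉ act σ (toSet q.1) ∧ e ∉ act σ (toSet q.2.1) ∧
      (∀ ℓ ∈ L, ¬ ℓ ⊆ insert e (act σ (toSet q.1))) ∧
      (insert e (act σ (toSet q.1)), act σ (toSet q.2.1)) ∈ W := by
  have h := List.all_eq_true.mp Pl_ok q hq
  obtain ⟨a, b, e, k, c⟩ := q
  unfold pOK at h
  simp only [Bool.and_eq_true, decide_eq_true_eq, Bool.not_eq_true'] at h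
  obtain ⟨⟨⟨⟨⟨⟨he, ha⟩, hb⟩, hpop⟩, hno⟩, hperm⟩, hm⟩ := h
  obtain ⟨τ, hτ⟩ := exists_perm hperm
  refine ⟨?_, ?_⟩
  · simp only [act_card, toSet_card]
    exact hpop
  · set i : Fin 15 := ⟨e, he⟩ with hi
    refine ⟨Sym2.map σ (edge i), ?_, ?_, ?_, ?_, ?_⟩
    · rw [map_diag]; exact edge_not_diag i
    · rw [mem_act, edge_mem]; simp only [hi]; rw [ha]; simp
    · rw [mem_act, edge_mem]; simp only [hi]; rw [hb]; simp
    · intro ℓ hℓ hsub
      rw [← act_insert, toSet_insert] at hsub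
      have h2 := act_mono σ⁻¹ hsub
      rw [act_inv_act] at h2
      exact noLine_sound hno _ (act_L σ⁻¹ hℓ) h2
    · rw [← act_insert, toSet_insert]
      cases hr : Ql[k]? with
      | none => rw [hr] at hm; simp at hm
      | some r =>
        rw [hr] at hm
        simp only [Bool.and_eq_true] at hm
        have e1 := checkEq_sound hm.1 τ hτ
        have e2 := checkEq_sound hm.2 τ hτ
        refine ⟨σ * τ, Or.inr ⟨r, List.mem_of_getElem? hr, ?_⟩⟩
        rw [act_mul, act_mul, ← e1, ← e2]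

lemma Q_step (q : ℕ × ℕ × List (ℕ × ℕ)) (hq : q ∈ Ql) (σ : Equiv.Perm (Fin 6)) :
    (act σ (toSet q.1)).card = (act σ (toSet q.2.1)).card + 1 ∧
    (∃ e : Sym2 (Fin 6), ¬ e.IsDiag ∧ e ∉ act σ (toSet q.1) ∧ e ∉ act σ (toSet q.2.1)) ∧
    ∀ e : Sym2 (Fin 6), ¬ e.IsDiag → e ∉ act σ (toSet q.1) → e ∉ act σ (toSet q.2.1) →
      (∃ ℓ ∈ L, ℓ ⊆ insert e (act σ (toSet q.2.1))) ∨
        (act σ (toSet q.1), insert e (act σ (toSet q.2.1))) ∈ W := by
  have h := List.all_eq_true.mp Ql_ok q hq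
  obtain ⟨a, b, mv⟩ := q
  unfold qOK at h
  simp only [Bool.and_eq_true, decide_eq_true_eq] at h
  obtain ⟨⟨hpop, hfree⟩, hmv⟩ := h
  refine ⟨?_, ?_, ?_⟩
  · simp only [act_card, toSet_card]
    exact hpop
  · obtain ⟨i, hi1, hi2⟩ := hfree
    refine ⟨Sym2.map σ (edge i), ?_, ?_, ?_⟩
    · rw [map_diag]; exact edge_not_diag i
    · rw [mem_act, edge_mem, hi1]; simp
    · rw [mem_act, edge_mem, hi2]; simp
  · intro e hd hA hB
    have hd2 : ¬ (Sym2.map (σ⁻¹ : Equiv.Perm (Fin 6)) e).IsDiag := by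
      rw [map_diag]; exact hd
    obtain ⟨i, hi⟩ := edge_surj _ hd2
    have hei : Sym2.map σ (edge i) = e := by
      rw [hi, Sym2.map_map]
      have : (⇑σ ∘ ⇑(σ⁻¹ : Equiv.Perm (Fin 6))) = id := by
        funext x; simp
      rw [this, Sym2.map_id, id]
    rw [← hei, mem_act, edge_mem] at hA hB
    obtain ⟨⟨t, c⟩, htc, hok⟩ := hmv i (by simpa using hA) (by simpa using hB)
    unfold mOK at hok
    rw [Bool.and_eq_true] at hok
    obtain ⟨hperm, hok⟩ := hok
    obtain ⟨τ, hτ⟩ := exists_perm hperm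
    rw [← hei, ← act_insert, toSet_insert]
    split_ifs at hok with h1 h2
    · left
      refine ⟨act (σ * τ) (toSet triMask), ⟨σ * τ, Or.inl rfl⟩, ?_⟩
      rw [act_mul]
      exact act_mono σ (checkSub_sound hok τ hτ)
    · left
      refine ⟨act (σ * τ) (toSet clawMask), ⟨σ * τ, Or.inr rfl⟩, ?_⟩
      rw [act_mul]
      exact act_mono σ (checkSub_sound hok τ hτ)
    · right
      cases hr : Pl[t - 3]? with
      | none => simp only [hr] at hok; simp at hok
      | some r =>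
        simp only [hr, Bool.and_eq_true] at hok
        have e1 := checkEq_sound hok.1 τ hτ
        have e2 := checkEq_sound hok.2 τ hτ
        refine ⟨σ * τ, Or.inl ⟨r, List.mem_of_getElem? hr, ?_⟩⟩
        rw [act_mul, act_mul, ← e1, ← e2]

lemma start_mem : ((∅ : Finset (Sym2 (Fin 6))), (∅ : Finset (Sym2 (Fin 6)))) ∈ W := by
  refine ⟨1, Or.inl ⟨Pl.head (by decide), List.head_mem _, ?_⟩⟩
  rw [act_one, act_one]
  have h1 : toSet (Pl.head (by decide)).1 = ∅ := by decide +kernel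
  have h2 : toSet (Pl.head (by decide)).2.1 = ∅ := by decide +kernel
  rw [h1, h2]

end Pool.Agent.H377R3.SIM
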